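import Mathlib
import Pool.Agent.Helper98.QSuperMain
import Pool.Agent.Helper98.QSuperAnti

/-!
# The `q`-supercongruence modulo `[p]^5 Φ_{p²}(q)`
-/

namespace Pool.Agent.Results.MP_9fe52c_nt.QSuperFull

open Polynomial Finset Pool.Agent.Helper98.QSuper

/-- The `q`-integer `[n] = 1 + q + ⋯ + q ^ (n - 1)`, a polynomial in `q = X`. -/
noncomputable def qInt (n : ℕ) : ℚ[X] := ∑ i ∈ range n, X ^ i

/-- The `q`-shifted factorial `(a; b)_j = (1 - a) (1 - a b) ⋯ (1 - a b ^ (j - 1))` in `ℚ(q)`. -/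
noncomputable def qPoch (a b : RatFunc ℚ) (j : ℕ) : RatFunc ℚ := ∏ i ∈ range j, (1 - a * b ^ i)

/-- The sum `S_p(q)`, a rational function of `q`. -/
noncomputable def S (p : ℕ) : RatFunc ℚ :=
  ∑ j ∈ range p, algebraMap ℚ[X] (RatFunc ℚ) (qInt (2 * (p + 1) * j + 1)) *
    (qPoch RatFunc.X (RatFunc.X ^ (p + 1)) j /
      qPoch (RatFunc.X ^ (p + 1)) (RatFunc.X ^ (p + 1)) j) ^ (2 * (p + 1)) *
    RatFunc.X ^ ((p ^ 2 - 1) * j)

/-- The number `c_p = p (p - 1) (p + 1) ^ 2 (2 p + 1) / 72`. -/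
def c (p : ℕ) : ℚ := (p : ℚ) * ((p : ℚ) - 1) * ((p : ℚ) + 1) ^ 2 * (2 * (p : ℚ) + 1) / 72

/-- `A ≡ B (mod f)`: `A - B = P / Q` with polynomials `P, Q`, `gcd (Q, f) = 1` and `f ∣ P`. -/
def CongrMod (f : ℚ[X]) (A B : RatFunc ℚ) : Prop :=
  ∃ P Q : ℚ[X], Q ≠ 0 ∧ IsCoprime Q f ∧ f ∣ P ∧
    A - B = algebraMap ℚ[X] (RatFunc ℚ) P / algebraMap ℚ[X] (RatFunc ℚ) Q

/-! ## Coprimality -/

lemma coprime_one_sub_X {m : ℚ[X]} (h : m.eval 1 ≠ 0) : IsCoprime (1 - X : ℚ[X]) m := by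
  have h1 : IsCoprime (X - C (1 : ℚ)) m := by
    rw [(irreducible_X_sub_C (1 : ℚ)).coprime_iff_not_dvd, dvd_iff_isRoot]
    exact h
  have h2 : (1 - X : ℚ[X]) = -(X - C 1) := by simp
  rw [h2]
  exact h1.neg_left

lemma coprime_one_sub_pow {p : ℕ} (hp : p.Prime) {m : ℚ[X]} (hm : m ∣ X ^ (p ^ 2) - 1)
    (h1 : m.eval 1 ≠ 0) {k : ℕ} (hk : ¬ p ∣ k) : IsCoprime (1 - X ^ k : ℚ[X]) m := by
  have hcop : Nat.Coprime k (p ^ 2) :=
    Nat.Coprime.pow_right 2 ((Nat.Prime.coprime_iff_not_dvd hp).mpr hk).symm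
  have hp2 : 1 < p ^ 2 := Nat.one_lt_pow (by norm_num) hp.one_lt
  obtain ⟨k', hk'⟩ := Nat.exists_mul_mod_eq_one_of_coprime hcop hp2
  obtain ⟨l, hl⟩ : ∃ l, k * k' = 1 + p ^ 2 * l := ⟨k * k' / p ^ 2, by
    have := Nat.div_add_mod (k * k') (p ^ 2)
    omega⟩
  have hX : (1 - X ^ (k * k') : ℚ[X]) = (1 - X) + X * (1 - (X ^ (p ^ 2)) ^ l) := by
    rw [hl, pow_add, pow_one, pow_mul]; ring
  have hdvd : m ∣ X * (1 - (X ^ (p ^ 2)) ^ l) := by
    have h3 : (X ^ (p ^ 2) - 1 : ℚ[X]) ∣ (X ^ (p ^ 2)) ^ l - 1 := by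
      simpa using sub_dvd_pow_sub_pow (X ^ (p ^ 2) : ℚ[X]) 1 l
    have h4 : m ∣ 1 - (X ^ (p ^ 2)) ^ l := by
      rw [← neg_sub, dvd_neg]
      exact hm.trans h3
    exact Dvd.dvd.mul_left h4 _
  have hco : IsCoprime (1 - X ^ (k * k') : ℚ[X]) m := by
    rw [hX]
    obtain ⟨w, hw⟩ := hdvd
    rw [hw, mul_comm m w]
    exact (IsCoprime.add_mul_right_left_iff).mpr (coprime_one_sub_X h1)
  have hd : (1 - X ^ k : ℚ[X]) ∣ 1 - X ^ (k * k') := by
    have : (1 : ℚ[X]) - X ^ k ∣ 1 ^ k' - (X ^ k) ^ k' := sub_dvd_pow_sub_pow _ _ _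
    rwa [one_pow, ← pow_mul] at this
  exact hco.of_isCoprime_of_dvd_left hd

lemma qInt_eval_one (p : ℕ) : (qInt p).eval 1 = p := by
  simp [qInt, eval_finsetSum]

lemma qInt_mul (p : ℕ) : qInt p * (X - 1) = X ^ p - 1 := geom_sum_mul X p

lemma qInt_dvd (p : ℕ) : qInt p ∣ X ^ (p ^ 2) - 1 := by
  have h1 : qInt p ∣ X ^ p - 1 := ⟨X - 1, (qInt_mul p).symm⟩
  have h2 : (X ^ p - 1 : ℚ[X]) ∣ (X ^ p) ^ p - 1 := by
    simpa using sub_dvd_pow_sub_pow (X ^ p : ℚ[X]) 1 p
  rw [sq, pow_mul]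
  exact h1.trans h2

lemma cyc_eq {p : ℕ} (hp : p.Prime) : cyclotomic (p ^ 2) ℚ = ∑ i ∈ range p, (X ^ p) ^ i := by
  have := cyclotomic_prime_pow_eq_geom_sum (R := ℚ) (p := p) (n := 1) hp
  simpa using this

lemma cyc_eval_one {p : ℕ} (hp : p.Prime) : (cyclotomic (p ^ 2) ℚ).eval 1 = p := by
  rw [cyc_eq hp]
  simp [eval_finsetSum]

lemma cyc_dvd (p : ℕ) : cyclotomic (p ^ 2) ℚ ∣ X ^ (p ^ 2) - 1 := cyclotomic.dvd_X_pow_sub_one _ _

/-! ## The polynomial form -/

/-- The numerators `(q; q^{p+1})_j`. -/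
noncomputable def num (p j : ℕ) : ℚ[X] := ∏ i ∈ range j, (1 - X * (X ^ (p + 1)) ^ i)

/-- The denominators `(q^{p+1}; q^{p+1})_j`. -/
noncomputable def den (p j : ℕ) : ℚ[X] := ∏ i ∈ range j, (1 - X ^ (p + 1) * (X ^ (p + 1)) ^ i)

/-- The complementary factor. -/
noncomputable def rest (p j : ℕ) : ℚ[X] :=
  ∏ i ∈ Ico j (p - 1), (1 - X ^ (p + 1) * (X ^ (p + 1)) ^ i)

lemma den_mul_rest {p j : ℕ} (hj : j ≤ p - 1) : den p j * rest p j = den p (p - 1) := by
  unfold den rest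
  rw [Finset.range_eq_Ico, Finset.range_eq_Ico]
  exact Finset.prod_Ico_consecutive _ (Nat.zero_le _) hj

/-- The numerator of the whole sum over the common denominator. -/
noncomputable def bigNum (p : ℕ) : ℚ[X] :=
  ∑ j ∈ range p, qInt (2 * (p + 1) * j + 1) * (num p j * rest p j) ^ (2 * (p + 1)) *
    X ^ ((p ^ 2 - 1) * j)

lemma factor_ne_zero (p i : ℕ) : (1 - X ^ (p + 1) * (X ^ (p + 1)) ^ i : ℚ[X]) ≠ 0 := by
  intro h
  have := congrArg (Polynomial.eval 0) h
  simp at this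

lemma den_ne_zero (p j : ℕ) : den p j ≠ 0 :=
  Finset.prod_ne_zero_iff.mpr fun i _ => factor_ne_zero p i

lemma S_eq {p : ℕ} (hp : 1 ≤ p) : S p = algebraMap ℚ[X] (RatFunc ℚ) (bigNum p) /
    algebraMap ℚ[X] (RatFunc ℚ) (den p (p - 1) ^ (2 * (p + 1))) := by
  have hinj : Function.Injective (algebraMap ℚ[X] (RatFunc ℚ)) := RatFunc.algebraMap_injective ℚ
  have hD : algebraMap ℚ[X] (RatFunc ℚ) (den p (p - 1) ^ (2 * (p + 1))) ≠ 0 := by
    rw [Ne, map_eq_zero_iff _ hinj]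
    exact pow_ne_zero _ (den_ne_zero _ _)
  rw [eq_div_iff hD]
  unfold S bigNum
  rw [map_sum, Finset.sum_mul]
  refine Finset.sum_congr rfl fun j hj => ?_
  rw [Finset.mem_range] at hj
  have h1 : qPoch RatFunc.X (RatFunc.X ^ (p + 1)) j =
      algebraMap ℚ[X] (RatFunc ℚ) (num p j) := by
    unfold qPoch num
    rw [map_prod]
    simp [RatFunc.algebraMap_X]
  have h2 : qPoch (RatFunc.X ^ (p + 1)) (RatFunc.X ^ (p + 1)) j =
      algebraMap ℚ[X] (RatFunc ℚ) (den p j) := by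
    unfold qPoch den
    rw [map_prod]
    simp [RatFunc.algebraMap_X]
  have h3 : algebraMap ℚ[X] (RatFunc ℚ) (den p j) ≠ 0 := by
    rw [Ne, map_eq_zero_iff _ hinj]
    exact den_ne_zero _ _
  rw [h1, h2, ← den_mul_rest (by omega : j ≤ p - 1)]
  simp only [map_mul, map_pow, RatFunc.algebraMap_X, mul_pow, div_pow]
  field_simp

/-! ## Working modulo a polynomial -/

section modulus

variable {p : ℕ} (hp : p.Prime) (m : ℚ[X]) (hco : ∀ k : ℕ, ¬ p ∣ k → IsCoprime (1 - X ^ k) m)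

include hco in
lemma unit_mod {k : ℕ} (hk : ¬ p ∣ k) :
    IsUnit (1 - (Ideal.Quotient.mk (Ideal.span {m}) X) ^ k) := by
  obtain ⟨a, b, hab⟩ := hco k hk
  have h := congrArg (Ideal.Quotient.mk (Ideal.span {m})) hab
  have hm : Ideal.Quotient.mk (Ideal.span {m}) m = 0 :=
    Ideal.Quotient.eq_zero_iff_mem.mpr (Ideal.mem_span_singleton_self m)
  simp only [map_add, map_mul, map_sub, map_one, map_pow, hm, mul_zero, add_zero] at h
  exact IsUnit.of_mul_eq_one _ (by rw [mul_comm]; exact h)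

include hp hco in
lemma den_unit {j : ℕ} (hj : j ≤ p - 1) :
    IsUnit (Ideal.Quotient.mk (Ideal.span {m}) (den p j)) := by
  unfold den
  rw [map_prod]
  rw [IsUnit.prod_iff]
  intro i hi
  rw [Finset.mem_range] at hi
  have h := unit_mod m hco (k := (p + 1) * (i + 1)) (by
    intro hd
    have h1 : (p + 1) * (i + 1) = p * (i + 1) + (i + 1) := by ring
    rw [h1] at hd
    have h2 := (Nat.dvd_add_right (Dvd.intro _ rfl)).mp hd
    have := Nat.le_of_dvd (by omega) h2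
    have := hp.two_le
    omega)
  have e : Ideal.Quotient.mk (Ideal.span {m}) (1 - X ^ (p + 1) * (X ^ (p + 1)) ^ i) =
      1 - (Ideal.Quotient.mk (Ideal.span {m}) X) ^ ((p + 1) * (i + 1)) := by
    rw [← map_one (Ideal.Quotient.mk (Ideal.span {m})), ← map_pow, ← map_sub]
    congr 2
    rw [← pow_mul, ← pow_add]
    congr 1
    ring
  rw [e]
  exact h

/-- The quotients `(q; q^{p+1})_j / (q^{p+1}; q^{p+1})_j` modulo `m`. -/
noncomputable def PP (p : ℕ) (m : ℚ[X]) (j : ℕ) : ℚ[X] ⧸ Ideal.span {m} :=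
  Ideal.Quotient.mk (Ideal.span {m}) (num p j) *
    Ring.inverse (Ideal.Quotient.mk (Ideal.span {m}) (den p j))

lemma PP_zero (p : ℕ) (m : ℚ[X]) : PP p m 0 = 1 := by
  simp [PP, num, den]

include hp hco in
lemma PP_succ {N : ℕ} (hN : p = N + 1) (j : ℕ) (hj : j < N) :
    PP p m (j + 1) * (1 - (Ideal.Quotient.mk (Ideal.span {m}) X) ^ ((N + 2) * (j + 1))) =
      PP p m j * (1 - (Ideal.Quotient.mk (Ideal.span {m}) X) ^ ((N + 2) * j + 1)) := by
  have hu1 := den_unit hp m hco (j := j) (by omega)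
  have hu2 := den_unit hp m hco (j := j + 1) (by omega)
  have i1 := Ring.mul_inverse_cancel _ hu1
  have i2 := Ring.mul_inverse_cancel _ hu2
  have e1 : Ideal.Quotient.mk (Ideal.span {m}) (num p (j + 1)) =
      Ideal.Quotient.mk (Ideal.span {m}) (num p j) *
        (1 - (Ideal.Quotient.mk (Ideal.span {m}) X) ^ ((N + 2) * j + 1)) := by
    unfold num
    rw [Finset.prod_range_succ, map_mul]
    congr 1
    simp only [map_sub, map_one, map_mul, map_pow]
    rw [← pow_mul, ← pow_succ', hN]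
  have e2 : Ideal.Quotient.mk (Ideal.span {m}) (den p (j + 1)) =
      Ideal.Quotient.mk (Ideal.span {m}) (den p j) *
        (1 - (Ideal.Quotient.mk (Ideal.span {m}) X) ^ ((N + 2) * (j + 1))) := by
    unfold den
    rw [Finset.prod_range_succ, map_mul]
    congr 1
    simp only [map_sub, map_one, map_mul, map_pow]
    rw [← pow_mul, ← pow_add, hN]
    congr 2
    ring
  unfold PP
  rw [e1]
  rw [e2] at i2 ⊢
  generalize Ideal.Quotient.mk (Ideal.span {m}) (num p j) = a at *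
  generalize Ideal.Quotient.mk (Ideal.span {m}) (den p j) = d at *
  generalize (1 - (Ideal.Quotient.mk (Ideal.span {m}) X) ^ ((N + 2) * (j + 1))) = s at *
  generalize (1 - (Ideal.Quotient.mk (Ideal.span {m}) X) ^ ((N + 2) * j + 1)) = t at *
  generalize Ring.inverse d = u at *
  generalize Ring.inverse (d * s) = w at *
  -- `d * u = 1`, `d * s * w = 1`
  linear_combination (a * t * u) * i2 - (a * t * s * w) * i1

include hp hco in
lemma mk_bigNum :
    Ideal.Quotient.mk (Ideal.span {m}) (bigNum p) =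
      Ideal.Quotient.mk (Ideal.span {m}) (den p (p - 1)) ^ (2 * (p + 1)) *
      ∑ j ∈ range p, (∑ i ∈ range (2 * (p + 1) * j + 1),
        (Ideal.Quotient.mk (Ideal.span {m}) X) ^ i) * PP p m j ^ (2 * (p + 1)) *
        (Ideal.Quotient.mk (Ideal.span {m}) X) ^ ((p ^ 2 - 1) * j) := by
  unfold bigNum
  rw [map_sum, Finset.mul_sum]
  refine Finset.sum_congr rfl fun j hj => ?_
  rw [Finset.mem_range] at hj
  have hu1 := den_unit hp m hco (j := j) (by omega)
  have i1 := Ring.mul_inverse_cancel _ hu1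
  have h1 : Ideal.Quotient.mk (Ideal.span {m}) (num p j * rest p j) =
      Ideal.Quotient.mk (Ideal.span {m}) (den p (p - 1)) * PP p m j := by
    rw [← den_mul_rest (by omega : j ≤ p - 1)]
    unfold PP
    rw [map_mul, map_mul]
    linear_combination (-(Ideal.Quotient.mk (Ideal.span {m}) (num p j) *
      Ideal.Quotient.mk (Ideal.span {m}) (rest p j))) * i1
  rw [map_mul, map_mul, map_pow, h1, map_pow]
  unfold qInt
  rw [map_sum]
  simp only [map_pow]
  ring

end modulus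

/-- **The `q`-supercongruence holds for every prime `p`.** -/
theorem result : ∀ p : ℕ, p.Prime →
    CongrMod (cyclotomic (p ^ 2) ℚ * qInt p ^ 5) (S p)
      (-(algebraMap ℚ[X] (RatFunc ℚ)
        (C (c p) * X * (1 - X) ^ 2 * qInt p ^ 4 * cyclotomic (p ^ 2) ℚ))) := by
  intro p hp
  have hp2 := hp.two_le
  obtain ⟨N, hN⟩ : ∃ N, p = N + 1 := ⟨p - 1, by omega⟩
  have hN1 : 1 ≤ N := by omega
  set D : ℚ[X] := den p (p - 1) with hD
  have hpQ : ((p : ℚ)) ≠ 0 := by exact_mod_cast hp.ne_zero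
  -- coprimality
  have hcoA : ∀ k : ℕ, ¬ p ∣ k → IsCoprime (1 - X ^ k : ℚ[X]) (cyclotomic (p ^ 2) ℚ) := fun k hk =>
    coprime_one_sub_pow hp (cyc_dvd p) (by rw [cyc_eval_one hp]; exact hpQ) hk
  have hcoB1 : ∀ k : ℕ, ¬ p ∣ k → IsCoprime (1 - X ^ k : ℚ[X]) (qInt p) := fun k hk =>
    coprime_one_sub_pow hp (qInt_dvd p) (by rw [qInt_eval_one]; exact hpQ) hk
  have hcoB : ∀ k : ℕ, ¬ p ∣ k → IsCoprime (1 - X ^ k : ℚ[X]) (qInt p ^ 5) := fun k hk =>
    (hcoB1 k hk).pow_right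
  have hDco : ∀ m : ℚ[X], (∀ k : ℕ, ¬ p ∣ k → IsCoprime (1 - X ^ k : ℚ[X]) m) →
      IsCoprime D m := by
    intro m hm
    rw [hD]
    unfold den
    apply IsCoprime.prod_left
    intro i hi
    rw [Finset.mem_range] at hi
    have := hm ((p + 1) * (i + 1)) (by
      intro hd
      have h1 : (p + 1) * (i + 1) = p * (i + 1) + (i + 1) := by ring
      rw [h1] at hd
      have h2 := (Nat.dvd_add_right (Dvd.intro _ rfl)).mp hd
      have := Nat.le_of_dvd (by omega) h2
      omega)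
    convert this using 2
    rw [← pow_mul, ← pow_add]
    congr 1
    ring
  refine ⟨bigNum p + D ^ (2 * (p + 1)) *
    (C (c p) * X * (1 - X) ^ 2 * qInt p ^ 4 * cyclotomic (p ^ 2) ℚ), D ^ (2 * (p + 1)),
    pow_ne_zero _ (den_ne_zero _ _), ?_, ?_, ?_⟩
  · exact (IsCoprime.mul_right (hDco _ hcoA) (hDco _ hcoB)).pow_left
  · have hcop : IsCoprime (cyclotomic (p ^ 2) ℚ) (qInt p ^ 5) := by
      have h1 : qInt p = cyclotomic p ℚ := by
        have : Fact p.Prime := ⟨hp⟩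
        rw [cyclotomic_prime]
        rfl
      rw [h1]
      apply IsCoprime.pow_right
      apply cyclotomic.isCoprime_rat
      intro h
      have : p ^ 2 = p ^ 1 := by rw [pow_one]; exact h
      have := Nat.pow_right_injective hp2 this
      omega
    apply hcop.mul_dvd
    · -- modulo `Φ_{p²}`
      apply dvd_add
      · rw [← Ideal.mem_span_singleton, ← Ideal.Quotient.eq_zero_iff_mem,
          mk_bigNum hp _ hcoA]
        have hq : (Ideal.Quotient.mk (Ideal.span {cyclotomic (p ^ 2) ℚ}) X) ^ ((N + 1) ^ 2) = 1 := by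
          rw [← map_pow, ← sub_eq_zero, ← map_one (Ideal.Quotient.mk _), ← map_sub,
            Ideal.Quotient.eq_zero_iff_mem, Ideal.mem_span_singleton, ← hN]
          exact cyc_dvd p
        have hanti := anti_ring N hN1 _ hq
          (fun k hk => unit_mod _ hcoA (by rw [hN]; exact hk)) (PP p (cyclotomic (p ^ 2) ℚ))
          (PP_zero _ _) (fun j hj => PP_succ hp _ hcoA hN j hj)
        have : ∑ j ∈ range p, (∑ i ∈ range (2 * (p + 1) * j + 1),
            (Ideal.Quotient.mk (Ideal.span {cyclotomic (p ^ 2) ℚ}) X) ^ i) *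
            PP p (cyclotomic (p ^ 2) ℚ) j ^ (2 * (p + 1)) *
            (Ideal.Quotient.mk (Ideal.span {cyclotomic (p ^ 2) ℚ}) X) ^ ((p ^ 2 - 1) * j) = 0 := by
          rw [← hanti, show range p = range (N + 1) by rw [hN]]
          refine Finset.sum_congr rfl fun j _ => ?_
          have h1 : 2 * (p + 1) = 2 * N + 4 := by omega
          have h2 : 2 * (p + 1) * j + 1 = 2 * (N + 2) * j + 1 := by rw [hN]
          have h3 : (p ^ 2 - 1) * j = N * (N + 2) * j := by
            have : p ^ 2 - 1 = N * (N + 2) := by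
              rw [hN]
              have : (N + 1) ^ 2 = N * (N + 2) + 1 := by ring
              omega
            rw [this]
          rw [h2, h1, h3, pow_mul]
        rw [this, mul_zero]
      · exact Dvd.dvd.mul_left (Dvd.intro_left _ rfl) _
    · -- modulo `[p]^5`
      rw [← Ideal.mem_span_singleton, ← Ideal.Quotient.eq_zero_iff_mem, map_add,
        mk_bigNum hp _ hcoB]
      set q := Ideal.Quotient.mk (Ideal.span {qInt p ^ 5}) X with hq
      set b := Ideal.Quotient.mk (Ideal.span {qInt p ^ 5}) (qInt p) with hb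
      have hb5 : b ^ 5 = 0 := by
        rw [hb, ← map_pow]
        exact Ideal.Quotient.eq_zero_iff_mem.mpr (Ideal.mem_span_singleton_self _)
      have hqp' : q ^ p - 1 = b * (q - 1) := by
        have := congrArg (Ideal.Quotient.mk (Ideal.span {qInt p ^ 5})) (qInt_mul p)
        simp only [map_mul, map_sub, map_one, map_pow] at this
        rw [hb, hq, this]
      have hqp : q ^ (N + 1) - 1 = b * (q - 1) := by
        rw [← hN]; exact hqp'
      have hpc : ((p : ℕ) : ℚ[X] ⧸ Ideal.span {qInt p ^ 5}) =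
          (N : ℚ[X] ⧸ Ideal.span {qInt p ^ 5}) + 1 := by
        have h := congrArg (Nat.cast : ℕ → ℚ[X] ⧸ Ideal.span {qInt p ^ 5}) hN
        rw [h]
        push_cast
        ring
      have hnil : (q ^ (N + 1) - 1) ^ 5 = 0 := by
        rw [hqp, mul_pow, hb5, zero_mul]
      have hmain := main_ring N hN1 q hnil
        (fun k hk => unit_mod _ hcoB (by rw [hN]; exact hk)) (PP p (qInt p ^ 5))
        (PP_zero _ _) (fun j hj => PP_succ hp _ hcoB hN j hj)
      have hsum : ∑ j ∈ range p, (∑ i ∈ range (2 * (p + 1) * j + 1), q ^ i) *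
          PP p (qInt p ^ 5) j ^ (2 * (p + 1)) * q ^ ((p ^ 2 - 1) * j) =
          ∑ j ∈ range (N + 1), (∑ i ∈ range (2 * (N + 2) * j + 1), q ^ i) *
            PP p (qInt p ^ 5) j ^ (2 * N + 4) * (q ^ (N * (N + 2))) ^ j := by
        rw [show range p = range (N + 1) by rw [hN]]
        refine Finset.sum_congr rfl fun j _ => ?_
        have h1 : 2 * (p + 1) = 2 * N + 4 := by omega
        have h2 : 2 * (p + 1) * j + 1 = 2 * (N + 2) * j + 1 := by rw [hN]
        have h3 : (p ^ 2 - 1) * j = N * (N + 2) * j := by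
          have : p ^ 2 - 1 = N * (N + 2) := by
            rw [hN]
            have : (N + 1) ^ 2 = N * (N + 2) + 1 := by ring
            omega
          rw [this]
        rw [h2, h1, h3, pow_mul]
      rw [hsum]
      clear hsum
      generalize (∑ j ∈ range (N + 1), (∑ i ∈ range (2 * (N + 2) * j + 1), q ^ i) *
            PP p (qInt p ^ 5) j ^ (2 * N + 4) * (q ^ (N * (N + 2))) ^ j) = Stot at hmain ⊢
      have hcyc : b ^ 4 * Ideal.Quotient.mk (Ideal.span {qInt p ^ 5}) (cyclotomic (p ^ 2) ℚ) =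
          b ^ 4 * ((N : ℚ[X] ⧸ Ideal.span {qInt p ^ 5}) + 1) := by
        rw [cyc_eq hp, map_sum, Finset.mul_sum]
        have hone : ∀ i : ℕ, b ^ 4 * (q ^ p) ^ i = b ^ 4 := by
          intro i
          induction i with
          | zero => simp
          | succ i ih =>
            linear_combination (q ^ p) * ih + b ^ 4 * hqp' + (q - 1) * hb5
        have hsum : ∀ i ∈ range p, b ^ 4 * Ideal.Quotient.mk (Ideal.span {qInt p ^ 5})
            ((X ^ p) ^ i) = b ^ 4 := by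
          intro i _
          rw [map_pow, map_pow]
          exact hone i
        rw [Finset.sum_congr rfl hsum, Finset.sum_const, Finset.card_range, nsmul_eq_mul, hpc]
        ring
      have hc : (72 : ℚ[X] ⧸ Ideal.span {qInt p ^ 5}) *
          Ideal.Quotient.mk (Ideal.span {qInt p ^ 5}) (C (c p)) =
          ((N : ℚ[X] ⧸ Ideal.span {qInt p ^ 5}) + 1) * (N : ℚ[X] ⧸ Ideal.span {qInt p ^ 5}) *
          ((N : ℚ[X] ⧸ Ideal.span {qInt p ^ 5}) + 2) ^ 2 *
          (2 * (N : ℚ[X] ⧸ Ideal.span {qInt p ^ 5}) + 3) := by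
        have h1 : (72 : ℚ) * c p = ((N : ℚ) + 1) * (N : ℚ) * ((N : ℚ) + 2) ^ 2 *
            (2 * (N : ℚ) + 3) := by
          unfold c
          rw [hN]
          push_cast
          ring
        have h2 := congrArg (fun r => Ideal.Quotient.mk (Ideal.span {qInt p ^ 5}) (C r)) h1
        simp only [map_mul, map_add, map_pow, map_ofNat, map_natCast, map_one] at h2
        exact h2
      have hunit : IsUnit ((72 : ℚ[X] ⧸ Ideal.span {qInt p ^ 5}) * (1 - q) ^ 2) := by
        have h1 : IsUnit (1 - q) := by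
          have := unit_mod (qInt p ^ 5) hcoB (k := 1) (by
            intro hd
            have := Nat.le_of_dvd one_pos hd
            omega)
          rwa [pow_one] at this
        have h2 : IsUnit (72 : ℚ[X] ⧸ Ideal.span {qInt p ^ 5}) := by
          have : (72 : ℚ[X] ⧸ Ideal.span {qInt p ^ 5}) =
              algebraMap ℚ (ℚ[X] ⧸ Ideal.span {qInt p ^ 5}) 72 := (map_ofNat _ 72).symm
          rw [this]
          exact (IsUnit.mk0 (72 : ℚ) (by norm_num)).map _
        exact h2.mul (h1.pow 2)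
      have hinner : Stot + Ideal.Quotient.mk (Ideal.span {qInt p ^ 5}) (C (c p)) * q *
          (1 - q) ^ 2 * b ^ 4 *
          Ideal.Quotient.mk (Ideal.span {qInt p ^ 5}) (cyclotomic (p ^ 2) ℚ) = 0 := by
        apply hunit.mul_right_eq_zero.mp
        rw [hqp] at hmain
        generalize Ideal.Quotient.mk (Ideal.span {qInt p ^ 5}) (C (c p)) = cc at hc ⊢
        generalize Ideal.Quotient.mk (Ideal.span {qInt p ^ 5}) (cyclotomic (p ^ 2) ℚ) = ph at hcyc ⊢
        linear_combination hmain + (q * (1 - q) ^ 4 * b ^ 4 * ph) * hc +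
          (((N : ℚ[X] ⧸ Ideal.span {qInt p ^ 5}) + 1) * (N : ℚ[X] ⧸ Ideal.span {qInt p ^ 5}) *
          ((N : ℚ[X] ⧸ Ideal.span {qInt p ^ 5}) + 2) ^ 2 *
          (2 * (N : ℚ[X] ⧸ Ideal.span {qInt p ^ 5}) + 3) * q * (1 - q) ^ 4) * hcyc
      simp only [map_mul, map_pow, map_sub, map_one]
      rw [← hq, ← hb]
      linear_combination ((Ideal.Quotient.mk (Ideal.span {qInt p ^ 5})) (den p (p - 1)) ^
        (2 * (p + 1))) * hinner
  · rw [S_eq (by omega)]
    have hinj : Function.Injective (algebraMap ℚ[X] (RatFunc ℚ)) := RatFunc.algebraMap_injective ℚ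
    have hD0 : algebraMap ℚ[X] (RatFunc ℚ) (D ^ (2 * (p + 1))) ≠ 0 := by
      rw [Ne, map_eq_zero_iff _ hinj]
      exact pow_ne_zero _ (den_ne_zero _ _)
    rw [sub_neg_eq_add, map_add, map_mul (algebraMap ℚ[X] (RatFunc ℚ)) (D ^ (2 * (p + 1)))]
    rw [add_div, mul_div_cancel_left₀ _ hD0]

end Pool.Agent.Results.MP_9fe52c_nt.QSuperFull
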